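import Mathlib
import Pool.Agent.H794R3.SmallSub.Rel

set_option autoImplicit false

/-!
# Modules are free over the algebra generated by a regular sequence, elementary form
-/

namespace Pool.Agent.Y860.SSub

open MvPolynomial RingTheory.Sequence
open scoped Pointwise

universe u v w

section free

variable {K : Type u} [Field K] {R : Type v} [CommRing R] [Algebra K R]

theorem aeval_finSucc (t : ℕ) (g : Fin (t + 1) → R) (P : MvPolynomial (Fin (t + 1)) K) :
    aeval g P = Polynomial.eval₂ ((aeval (fun i : Fin t => g i.succ) :
      MvPolynomial (Fin t) K →ₐ[K] R) : MvPolynomial (Fin t) K →+* R) (g 0)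
        (finSuccEquiv K t P) := by
  induction P using MvPolynomial.induction_on with
  | C a =>
    have h : finSuccEquiv K t (C a) = Polynomial.C (C a) := (finSuccEquiv K t).commutes a
    rw [h, Polynomial.eval₂_C, aeval_C]
    simp
  | add p q hp hq => rw [map_add, map_add, Polynomial.eval₂_add, hp, hq]
  | mul_X p i hp =>
    rw [map_mul, map_mul, Polynomial.eval₂_mul, ← hp]
    congr 1
    refine Fin.cases ?_ (fun j => ?_) i
    · simp [finSuccEquiv_X_zero]
    · simp [finSuccEquiv_X_succ]

/-- Elements which are linearly independent modulo the submodule generated by a weakly regular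
sequence are linearly independent over the algebra generated by the sequence. -/
theorem indep {ι : Type*} [Fintype ι] : ∀ (t : ℕ) (M : Type w) [AddCommGroup M] [Module R M]
    (g : Fin t → R) (v : ι → M), IsWeaklyRegular M (List.ofFn g) →
    (∀ c : ι → K, ∑ i, algebraMap K R (c i) • v i ∈
      (Ideal.ofList (List.ofFn g) • (⊤ : Submodule R M)) → c = 0) →
    ∀ P : ι → MvPolynomial (Fin t) K, ∑ i, aeval g (P i) • v i = 0 → P = 0 := by
  intro t
  induction t with
  | zero =>
    intro M _ _ g v _ hv P hP
    have h1 : ∀ i, P i = C ((P i).coeff 0) := fun i => eq_C_of_isEmpty (P i)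
    have h2 : (fun i => (P i).coeff 0) = 0 := by
      apply hv
      have h3 : ∑ i, algebraMap K R ((P i).coeff 0) • v i = 0 := by
        rw [← hP]
        refine Finset.sum_congr rfl fun i _ => ?_
        conv_rhs => rw [h1 i]
        rw [aeval_C]
      rw [h3]
      exact Submodule.zero_mem _
    funext i
    rw [h1 i, congrFun h2 i]
    simp
  | succ t ih =>
    intro M _ _ g v hg hv P hP
    rw [List.ofFn_succ, isWeaklyRegular_cons_iff] at hg
    obtain ⟨hg0, hg1⟩ := hg
    set φ : MvPolynomial (Fin t) K →+* R := ((aeval (fun i : Fin t => g i.succ) :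
      MvPolynomial (Fin t) K →ₐ[K] R) : MvPolynomial (Fin t) K →+* R) with hφ
    have hdiv : ∀ p : Polynomial (MvPolynomial (Fin t) K), Polynomial.eval₂ φ (g 0) p =
        Polynomial.eval₂ φ (g 0) p.divX * g 0 + φ (p.coeff 0) := by
      intro p
      conv_lhs => rw [← Polynomial.divX_mul_X_add p]
      rw [Polynomial.eval₂_add, Polynomial.eval₂_mul, Polynomial.eval₂_X, Polynomial.eval₂_C]
    -- the constant coefficients vanish
    have hconst : ∀ p : ι → Polynomial (MvPolynomial (Fin t) K),
        ∑ i, Polynomial.eval₂ φ (g 0) (p i) • v i = 0 → (∀ i, (p i).coeff 0 = 0) ∧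
          ∑ i, Polynomial.eval₂ φ (g 0) (p i).divX • v i = 0 := by
      intro p hp
      have h1 : g 0 • ∑ i, Polynomial.eval₂ φ (g 0) (p i).divX • v i +
          ∑ i, φ ((p i).coeff 0) • v i = 0 := by
        rw [← hp, Finset.smul_sum, ← Finset.sum_add_distrib]
        refine Finset.sum_congr rfl fun i _ => ?_
        rw [hdiv (p i), add_smul, mul_comm, mul_smul]
      have h2 : (fun i => (p i).coeff 0) = 0 := by
        refine ih (QuotSMulTop (g 0) M) (fun i => g i.succ)
          (fun i => Submodule.Quotient.mk (v i)) hg1 ?_ _ ?_
        · intro c hc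
          apply hv
          have h3 : (Submodule.Quotient.mk (∑ i, algebraMap K R (c i) • v i) :
              QuotSMulTop (g 0) M) ∈ (Ideal.ofList (List.ofFn fun i : Fin t => g i.succ) •
                (⊤ : Submodule R (QuotSMulTop (g 0) M))) := by
            convert hc using 1
            rw [← Submodule.mkQ_apply, map_sum]
            rfl
          have h4 : (Ideal.ofList (List.ofFn fun i : Fin t => g i.succ) •
                (⊤ : Submodule R (QuotSMulTop (g 0) M))) =
              Submodule.map (Submodule.mkQ (g 0 • (⊤ : Submodule R M)))
                (Ideal.ofList (List.ofFn fun i : Fin t => g i.succ) • (⊤ : Submodule R M)) := by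
            rw [Submodule.map_smul'', Submodule.map_top, Submodule.range_mkQ]
          rw [h4] at h3
          obtain ⟨y, hy, hyx⟩ := h3
          have h5 : ∑ i, algebraMap K R (c i) • v i - y ∈ (g 0 • (⊤ : Submodule R M)) := by
            rw [← Submodule.Quotient.eq]
            exact hyx.symm
          rw [List.ofFn_succ, Ideal.ofList_cons_smul]
          have h6 : ∑ i, algebraMap K R (c i) • v i =
              (∑ i, algebraMap K R (c i) • v i - y) + y := by abel
          rw [h6]
          exact Submodule.add_mem_sup h5 hy
        · have h3 : ∑ i, (aeval (fun i : Fin t => g i.succ)) ((p i).coeff 0) •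
              (Submodule.Quotient.mk (v i) : QuotSMulTop (g 0) M) =
              Submodule.Quotient.mk (∑ i, φ ((p i).coeff 0) • v i) := by
            rw [← Submodule.mkQ_apply, map_sum]
            rfl
          rw [h3]
          rw [Submodule.Quotient.mk_eq_zero]
          have h4 : ∑ i, φ ((p i).coeff 0) • v i =
              g 0 • (- ∑ i, Polynomial.eval₂ φ (g 0) (p i).divX • v i) := by
            rw [smul_neg]
            exact eq_neg_of_add_eq_zero_right h1
          rw [h4]
          exact Submodule.smul_mem_pointwise_smul _ _ _ trivial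
      refine ⟨fun i => congrFun h2 i, ?_⟩
      apply hg0
      show g 0 • _ = g 0 • (0 : M)
      rw [smul_zero]
      have h3 : ∑ i, φ ((p i).coeff 0) • v i = 0 := by
        refine Finset.sum_eq_zero fun i _ => ?_
        have : (p i).coeff 0 = 0 := congrFun h2 i
        rw [this, map_zero, zero_smul]
      rw [h3, add_zero] at h1
      exact h1
    have hmain : ∀ (D : ℕ) (p : ι → Polynomial (MvPolynomial (Fin t) K)),
        (∀ i, (p i).natDegree ≤ D) → ∑ i, Polynomial.eval₂ φ (g 0) (p i) • v i = 0 →
          ∀ i, p i = 0 := by
      intro D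
      induction D with
      | zero =>
        intro p hD hp i
        have h1 := (hconst p hp).1 i
        rw [Polynomial.eq_C_of_natDegree_le_zero (hD i), h1, Polynomial.C_0]
      | succ D ihD =>
        intro p hD hp i
        obtain ⟨h1, h2⟩ := hconst p hp
        have h3 := ihD (fun i => (p i).divX) (fun i => by
          rw [Polynomial.natDegree_divX_eq_natDegree_tsub_one]
          have := hD i
          omega) h2 i
        rw [← Polynomial.divX_mul_X_add (p i), h1 i]
        rw [h3]
        simp
    have h0 := hmain (∑ i, (finSuccEquiv K t (P i)).natDegree) (fun i => finSuccEquiv K t (P i))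
      (fun i => Finset.single_le_sum (f := fun i => (finSuccEquiv K t (P i)).natDegree)
        (fun _ _ => Nat.zero_le _) (Finset.mem_univ i)) (by
        rw [← hP]
        refine Finset.sum_congr rfl fun i _ => ?_
        rw [aeval_finSucc])
    funext i
    have := h0 i
    rwa [EmbeddingLike.map_eq_zero_iff] at this

end free

end Pool.Agent.Y860.SSub
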