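import Mathlib
import Pool.Agent.Y860.SSub.Free

set_option autoImplicit false

/-!
# The key lemma: new linear forms which occur with linearly independent coefficients
-/

namespace Pool.Agent.Y860.SSub

open MvPolynomial RingTheory.Sequence Pool.Agent.H794R3.SmallSub

universe u

/-- Vectors modulo a subspace. -/
theorem decomp {K : Type u} [Field K] {E : Type u} [AddCommGroup E] [Module K E]
    (W : Submodule K E) {ι : Type} [Fintype ι] (y : ι → E) :
    ∃ (r : ℕ) (b : Fin r → E) (w : ι → E) (lam : ι → Fin r → K), (∀ i, w i ∈ W) ∧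
      (∀ i, y i = w i + ∑ j, lam i j • b j) ∧
      (∀ c : Fin r → K, ∑ j, c j • b j ∈ W → c = 0) ∧
      (∀ j, b j ∈ Submodule.span K (Set.range y)) := by
  set Q : Submodule K (E ⧸ W) := Submodule.map W.mkQ (Submodule.span K (Set.range y)) with hQ
  have h1 : Module.Finite K (Submodule.span K (Set.range y)) :=
    Module.Finite.span_of_finite K (Set.finite_range y)
  have h2 : Module.Finite K Q := by
    rw [hQ]
    exact Module.Finite.map _ _
  let bq := Module.finBasis K Q
  have h3 : ∀ j, ∃ z ∈ Submodule.span K (Set.range y), W.mkQ z = (bq j : E ⧸ W) :=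
    fun j => (bq j).2
  choose b hb hbq using h3
  have hyQ : ∀ i, W.mkQ (y i) ∈ Q := fun i =>
    Submodule.mem_map_of_mem (Submodule.subset_span ⟨i, rfl⟩)
  refine ⟨_, b, fun i => y i - ∑ j, bq.repr ⟨W.mkQ (y i), hyQ i⟩ j • b j,
    fun i j => bq.repr ⟨W.mkQ (y i), hyQ i⟩ j, ?_, ?_, ?_, hb⟩
  · intro i
    rw [← Submodule.Quotient.mk_eq_zero, ← Submodule.mkQ_apply, map_sub, map_sum, sub_eq_zero]
    have h4 := congrArg (fun z : Q => (z : E ⧸ W)) (bq.sum_repr ⟨W.mkQ (y i), hyQ i⟩)
    simp only [Submodule.coe_sum, Submodule.coe_smul] at h4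
    refine Eq.trans h4.symm ?_
    refine Finset.sum_congr rfl fun j _ => ?_
    rw [map_smul, hbq]
  · intro i
    simp
  · intro c hc
    have h4 : ∑ j, c j • bq j = 0 := by
      apply Subtype.ext
      simp only [Submodule.coe_sum, Submodule.coe_smul, Submodule.coe_zero]
      rw [← Submodule.Quotient.mk_eq_zero, ← Submodule.mkQ_apply, map_sum] at hc
      rw [← hc]
      refine Finset.sum_congr rfl fun j _ => ?_
      rw [map_smul, hbq]
    funext j
    exact Fintype.linearIndependent_iff.1 bq.linearIndependent c h4 j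

variable {K : Type u} [Field K] {N t : ℕ}

theorem constantCoeff_of_homog {p : MvPolynomial (Fin N) K} {c : ℕ} (hc : 1 ≤ c)
    (hp : p.IsHomogeneous c) : constantCoeff p = 0 := by
  rw [constantCoeff_eq]
  apply hp.coeff_eq_zero
  rw [map_zero]
  omega

theorem span_constantCoeff (G : Fin t → MvPolynomial (Fin N) K) (e : Fin t → ℕ)
    (he : ∀ j, 1 ≤ e j) (hG : ∀ j, (G j).IsHomogeneous (e j)) (p : MvPolynomial (Fin N) K)
    (hp : p ∈ Ideal.span (Set.range G)) : constantCoeff p = 0 := by
  have h : Ideal.span (Set.range G) ≤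
      RingHom.ker (constantCoeff : MvPolynomial (Fin N) K →+* K) := by
    rw [Ideal.span_le]
    rintro _ ⟨j, rfl⟩
    exact constantCoeff_of_homog (he j) (hG j)
  exact h hp

theorem V_le_adjoin (G : Fin t → MvPolynomial (Fin N) K) (e : Fin t → ℕ) (c : ℕ)
    {w : MvPolynomial (Fin N) K} (hw : w ∈ V G e c) : w ∈ Algebra.adjoin K (Set.range G) := by
  have h : V G e c ≤ Subalgebra.toSubmodule (Algebra.adjoin K (Set.range G)) := by
    unfold V
    rw [Submodule.span_le]
    rintro _ ⟨j, -, rfl⟩
    exact Algebra.subset_adjoin ⟨j, rfl⟩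
  exact h hw

/-- The independence of `1` and of linear forms which are independent modulo the linear members
of the sequence. -/
theorem indep_one (G : Fin t → MvPolynomial (Fin N) K) (e : Fin t → ℕ)
    (he : ∀ j, 1 ≤ e j) (hG : ∀ j, (G j).IsHomogeneous (e j))
    (hreg : IsRegular (MvPolynomial (Fin N) K) (List.ofFn G)) (r : ℕ)
    (b : Fin r → MvPolynomial (Fin N) K) (hb : ∀ j, (b j).IsHomogeneous 1)
    (hind : ∀ c : Fin r → K, ∑ j, c j • b j ∈ V G e 1 → c = 0)
    (P0 : MvPolynomial (Fin t) K) (P : Fin r → MvPolynomial (Fin t) K)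
    (h : aeval G P0 + ∑ j, aeval G (P j) * b j = 0) : P = 0 := by
  have hP : (fun o : Option (Fin r) => o.elim P0 P) = 0 := by
    refine indep (K := K) t (MvPolynomial (Fin N) K) G (fun o : Option (Fin r) => o.elim 1 b)
      hreg.toIsWeaklyRegular ?_ _ ?_
    · intro co hco
      rw [smul_eq_mul, Ideal.mul_top, ofList_ofFn, Fintype.sum_option] at hco
      simp only [Option.elim_none, Option.elim_some, smul_eq_mul, mul_one] at hco
      have hlin : ∑ j, algebraMap K (MvPolynomial (Fin N) K) (co (some j)) * b j =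
          ∑ j, co (some j) • b j := by
        refine Finset.sum_congr rfl fun j _ => ?_
        rw [Algebra.smul_def]
      rw [hlin] at hco
      have hlinh : (∑ j, co (some j) • b j).IsHomogeneous 1 := by
        have : ∑ j, co (some j) • b j ∈ homogeneousSubmodule (Fin N) K 1 :=
          Submodule.sum_mem _ fun j _ => Submodule.smul_mem _ _ (hb j)
        exact this
      have h0 : co none = 0 := by
        have h1 := span_constantCoeff G e he hG _ hco
        rw [map_add, constantCoeff_of_homog le_rfl hlinh, add_zero] at h1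
        simpa using h1
      rw [h0, map_zero, zero_add] at hco
      have h2 := linear_mem G e he hG _ hlinh hco
      have h6 := hind _ h2
      funext o
      rcases o with _ | j
      · exact h0
      · exact congrFun h6 j
    · rw [Fintype.sum_option]
      simp only [Option.elim_none, Option.elim_some, smul_eq_mul, mul_one]
      exact h
  funext j
  exact congrFun hP (some j)

/-- If a sum of products of linearly independent elements of `K[G]` with linear forms lies in
`K[G]`, then the linear forms are combinations of the linear members of the sequence. -/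
theorem key (G : Fin t → MvPolynomial (Fin N) K) (e : Fin t → ℕ)
    (he : ∀ j, 1 ≤ e j) (hG : ∀ j, (G j).IsHomogeneous (e j))
    (hreg : IsRegular (MvPolynomial (Fin N) K) (List.ofFn G))
    {ι : Type} [Fintype ι] (a : ι → MvPolynomial (Fin N) K)
    (ha : ∀ i, a i ∈ Algebra.adjoin K (Set.range G)) (hli : LinearIndependent K a)
    (y : ι → MvPolynomial (Fin N) K) (hy : ∀ i, (y i).IsHomogeneous 1)
    (hF : ∑ i, a i * y i ∈ Algebra.adjoin K (Set.range G)) (i : ι) : y i ∈ V G e 1 := by
  obtain ⟨r, b, w, lam, hw, hyi, hind, hb⟩ := decomp (V G e 1) y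
  have hb1 : ∀ j, (b j).IsHomogeneous 1 := by
    intro j
    have h1 : Submodule.span K (Set.range y) ≤ homogeneousSubmodule (Fin N) K 1 := by
      rw [Submodule.span_le]
      rintro _ ⟨i, rfl⟩
      exact hy i
    exact h1 (hb j)
  have hpoly : ∀ z ∈ Algebra.adjoin K (Set.range G), ∃ P : MvPolynomial (Fin t) K,
      aeval G P = z := by
    intro z hz
    rw [Algebra.adjoin_range_eq_range_aeval] at hz
    exact hz
  choose Pa hPa using fun i => hpoly (a i) (ha i)
  obtain ⟨PF, hPF⟩ := hpoly _ hF
  choose Pw hPw using fun i => hpoly (w i) (V_le_adjoin G e 1 (hw i))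
  have hP : (fun j => - ∑ i, C (lam i j) * Pa i) = 0 := by
    refine indep_one G e he hG hreg r b hb1 hind (PF - ∑ i, Pa i * Pw i) _ ?_
    have e1 : aeval G (PF - ∑ i, Pa i * Pw i) = ∑ i, a i * y i - ∑ i, a i * w i := by
      rw [map_sub, hPF, map_sum]
      congr 1
      refine Finset.sum_congr rfl fun i _ => ?_
      rw [map_mul, hPa, hPw]
    have e2 : ∀ j, aeval G (- ∑ i, C (lam i j) * Pa i) * b j =
        - ∑ i, a i * (lam i j • b j) := by
      intro j
      rw [map_neg, map_sum, neg_mul, Finset.sum_mul]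
      congr 1
      refine Finset.sum_congr rfl fun i _ => ?_
      rw [map_mul, hPa, aeval_C, Algebra.smul_def]
      ring
    rw [e1, Finset.sum_congr rfl fun j _ => e2 j, Finset.sum_neg_distrib, Finset.sum_comm,
      ← Finset.sum_sub_distrib, ← sub_eq_add_neg, ← Finset.sum_sub_distrib]
    refine Finset.sum_eq_zero fun i _ => ?_
    rw [← Finset.mul_sum]
    have := hyi i
    rw [this]
    ring
  have hlz : ∀ j i, lam i j = 0 := by
    intro j
    have h1 : - ∑ i, C (lam i j) * Pa i = 0 := congrFun hP j
    have h2 := congrArg (aeval G) h1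
    rw [map_neg, map_sum, map_zero, neg_eq_zero] at h2
    have h3 : ∑ i, lam i j • a i = 0 := by
      rw [← h2]
      refine Finset.sum_congr rfl fun i _ => ?_
      rw [map_mul, hPa, aeval_C, Algebra.smul_def]
    exact Fintype.linearIndependent_iff.1 hli (fun i => lam i j) h3
  rw [hyi i]
  have h1 : ∑ j, lam i j • b j = 0 := by
    refine Finset.sum_eq_zero fun j _ => ?_
    rw [hlz j i, zero_smul]
  rw [h1, add_zero]
  exact hw i

end Pool.Agent.Y860.SSub
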