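import Mathlib
import Pool.Agent.Y860.SSub.Key

set_option autoImplicit false

/-!
# The forms, and the lower bound for the length of a regular sequence
-/

namespace Pool.Agent.Y860.SSub

open MvPolynomial RingTheory.Sequence Pool.Agent.H794R3.SmallSub

universe u

/-- The numbers `M(0) = 1`, `M(n + 1) = M(n) + C(M(n) + r - 1, r)`. -/
def M (r : ℕ) : ℕ → ℕ
  | 0 => 1
  | n + 1 => M r n + (M r n + r - 1).choose r

theorem M_mono (r : ℕ) {a b : ℕ} (h : a ≤ b) : M r a ≤ M r b := by
  induction h with
  | refl => exact le_rfl
  | step _ ih => exact ih.trans (Nat.le_add_right _ _)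

variable {K : Type u} [Field K]

/-- The exponent vector of a multiset of variables. -/
noncomputable def ev {m N : ℕ} (h : m ≤ N) {r : ℕ} (s : Sym (Fin m) r) : Fin N →₀ ℕ :=
  Multiset.toFinsupp ((s : Multiset (Fin m)).map (Fin.castLE h))

theorem ev_injective {m N : ℕ} (h : m ≤ N) (r : ℕ) :
    Function.Injective (ev h : Sym (Fin m) r → Fin N →₀ ℕ) := by
  intro s s' hs
  have h1 := Multiset.toFinsupp.injective hs
  have h2 := Multiset.map_injective (Fin.castLE_injective h) h1
  exact Subtype.ext h2

theorem ev_degree {m N : ℕ} (h : m ≤ N) {r : ℕ} (s : Sym (Fin m) r) : (ev h s).degree = r := by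
  have h1 := Multiset.toFinsupp_sum_eq ((s : Multiset (Fin m)).map (Fin.castLE h))
  rw [Multiset.card_map] at h1
  have h2 : Multiset.card (s : Multiset (Fin m)) = r := s.2
  rw [h2] at h1
  refine Eq.trans ?_ h1
  rfl

theorem ev_support {m N : ℕ} (h : m ≤ N) {r : ℕ} (s : Sym (Fin m) r) (i : Fin N)
    (hi : i ∈ (ev h s).support) : i.val < m := by
  rw [ev, Multiset.toFinsupp_support, Multiset.mem_toFinset, Multiset.mem_map] at hi
  obtain ⟨j, -, rfl⟩ := hi
  exact j.2

/-- Enumeration of the monomials of degree `r` in `m` variables. -/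
noncomputable def enum (m r : ℕ) : Sym (Fin m) r ≃ Fin ((m + r - 1).choose r) :=
  Fintype.equivFinOfCardEq (by rw [Sym.card_sym_eq_choose, Fintype.card_fin])

/-- The form `∑ x^α y_α` of degree `r + 1`; the sum is over all monomials `x^α` of degree `r` in
the first `m` variables, and the `y_α` are the next variables. -/
noncomputable def F (K : Type u) [Field K] (r N m : ℕ) : MvPolynomial (Fin N) K :=
  if h : m + (m + r - 1).choose r ≤ N then
    ∑ s : Sym (Fin m) r, monomial (ev (by omega : m ≤ N) s) 1 *
      X (⟨m + (enum m r s).val, by have := (enum m r s).2; omega⟩ : Fin N)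
  else 0

theorem F_homog (r N m : ℕ) : (F K r N m).IsHomogeneous (r + 1) := by
  unfold F
  split_ifs with h
  · apply IsHomogeneous.sum
    intro s _
    exact (isHomogeneous_monomial _ (ev_degree _ s)).mul (isHomogeneous_X _ _)
  · exact isHomogeneous_zero _ _ _

variable {N t : ℕ}

theorem monomial_mem_adjoin (A : Subalgebra K (MvPolynomial (Fin N) K)) (m : ℕ)
    (hX : ∀ i : Fin N, i.val < m → X i ∈ A) (s : Fin N →₀ ℕ)
    (hs : ∀ i ∈ s.support, i.val < m) : (monomial s (1 : K)) ∈ A := by
  rw [monomial_eq, C_1, one_mul]
  unfold Finsupp.prod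
  exact Subalgebra.prod_mem _ fun i hi => Subalgebra.pow_mem _ (hX i (hs i hi)) _

/-- One step: the new variables are linear combinations of the linear `G_j`. -/
theorem step (G : Fin t → MvPolynomial (Fin N) K) (e : Fin t → ℕ)
    (he : ∀ j, 1 ≤ e j) (hG : ∀ j, (G j).IsHomogeneous (e j))
    (hreg : IsRegular (MvPolynomial (Fin N) K) (List.ofFn G)) (r m : ℕ)
    (h : m + (m + r - 1).choose r ≤ N)
    (hX : ∀ i : Fin N, i.val < m → X i ∈ V G e 1)
    (hF : F K r N m ∈ Algebra.adjoin K (Set.range G)) (i : Fin N)
    (hi : i.val < m + (m + r - 1).choose r) : X i ∈ V G e 1 := by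
  by_cases him : i.val < m
  · exact hX i him
  · have hmN : m ≤ N := by omega
    have h1 : ∀ i : Fin N, i.val < m → (X i : MvPolynomial (Fin N) K) ∈
        Algebra.adjoin K (Set.range G) := fun i hi => V_le_adjoin G e 1 (hX i hi)
    rw [F, dif_pos h] at hF
    have hk := key G e he hG hreg (fun s : Sym (Fin m) r => monomial (ev hmN s) (1 : K))
      (fun s => monomial_mem_adjoin _ m h1 _ (ev_support hmN s))
      (by
        have := (basisMonomials (Fin N) K).linearIndependent.comp (ev hmN) (ev_injective hmN r)
        rw [coe_basisMonomials] at this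
        exact this)
      (fun s => X (⟨m + (enum m r s).val, by have := (enum m r s).2; omega⟩ : Fin N))
      (fun s => isHomogeneous_X _ _) hF
      ((enum m r).symm ⟨i.val - m, by omega⟩)
    convert hk using 2
    apply Fin.ext
    simp only [Equiv.apply_symm_apply]
    omega

/-- A regular sequence of forms of positive degree whose subalgebra contains `x_0` and the first
`n` forms has at least `M(n)` members. -/
theorem lower (r n : ℕ) (G : Fin t → MvPolynomial (Fin (M r n)) K) (e : Fin t → ℕ)
    (he : ∀ j, 1 ≤ e j) (hG : ∀ j, (G j).IsHomogeneous (e j))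
    (hreg : IsRegular (MvPolynomial (Fin (M r n)) K) (List.ofFn G))
    (h0 : x (K := K) (M r n) 0 ∈ Algebra.adjoin K (Set.range G))
    (hF : ∀ k < n, F K r (M r n) (M r k) ∈ Algebra.adjoin K (Set.range G)) : M r n ≤ t := by
  have hall : ∀ k ≤ n, ∀ i : Fin (M r n), i.val < M r k → X i ∈ V G e 1 := by
    intro k
    induction k with
    | zero =>
      intro _ i hi
      have hi0 : i.val = 0 := by
        have : M r 0 = 1 := rfl
        omega
      have h1 : x (K := K) (M r n) 0 = X i := by
        unfold x
        have h2 : 0 < M r n := by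
          have := i.2
          omega
        rw [dif_pos h2]
        congr 1
        exact Fin.ext hi0.symm
      rw [h1] at h0
      have := key G e he hG hreg (fun _ : Unit => (1 : MvPolynomial (Fin (M r n)) K))
        (fun _ => Subalgebra.one_mem _) (by
          rw [Fintype.linearIndependent_iff]
          intro g hg u
          have h3 : g () • (1 : MvPolynomial (Fin (M r n)) K) = 0 := by simpa using hg
          have h4 := (smul_eq_zero.1 h3).resolve_right one_ne_zero
          exact h4) (fun _ => X i) (fun _ => isHomogeneous_X _ _) (by simpa using h0) ()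
      exact this
    | succ k ih =>
      intro hk i hi
      refine step G e he hG hreg r (M r k) ?_ (ih (by omega)) (hF k (by omega)) i hi
      exact M_mono r hk
  apply card_bound G e
  intro i hi
  unfold x
  rw [dif_pos hi]
  exact hall n le_rfl _ hi

end Pool.Agent.Y860.SSub
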