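import Mathlib
import Pool.Agent.Y860.SSub.Forms

set_option autoImplicit false

/-!
# The numbers `M(n)` grow doubly exponentially
-/

namespace Pool.Agent.Y860.SSub

theorem factorial_le (s : ℕ) : (s + 1).factorial ≤ (s + 1) ^ s := by
  induction s with
  | zero => simp
  | succ s ih =>
    rw [Nat.factorial_succ, pow_succ']
    exact Nat.mul_le_mul_left _ (ih.trans (Nat.pow_le_pow_left (by omega) _))

theorem pow_le (m r : ℕ) : (m + 1) ^ r ≤ r.factorial * (m + r).choose r := by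
  have h1 := Nat.pow_succ_le_ascFactorial (m + 1) r
  rw [Nat.ascFactorial_eq_factorial_mul_choose] at h1
  exact h1

/-- `(r X)^r / r! ≥ r X^r`. -/
theorem choose_ge (r m X : ℕ) (hr : 1 ≤ r) (hm : 1 ≤ m) (h : r * X ≤ m) :
    r * X ^ r ≤ (m + r - 1).choose r := by
  obtain ⟨s, rfl⟩ : ∃ s, r = s + 1 := ⟨r - 1, by omega⟩
  obtain ⟨m, rfl⟩ : ∃ k, m = k + 1 := ⟨m - 1, by omega⟩
  have h1 := pow_le m (s + 1)
  have h2 := factorial_le s
  have h3 : (m + 1 + (s + 1) - 1) = m + (s + 1) := by omega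
  rw [h3]
  have h4 : ((s + 1) * X) ^ (s + 1) ≤ (s + 1) ^ s * (m + (s + 1)).choose (s + 1) :=
    calc ((s + 1) * X) ^ (s + 1) ≤ (m + 1) ^ (s + 1) := Nat.pow_le_pow_left h _
      _ ≤ (s + 1).factorial * (m + (s + 1)).choose (s + 1) := h1
      _ ≤ _ := Nat.mul_le_mul_right _ h2
  have h5 : ((s + 1) * X) ^ (s + 1) = (s + 1) ^ s * ((s + 1) * X ^ (s + 1)) := by
    rw [mul_pow, pow_succ (s + 1) s, mul_assoc]
  rw [h5] at h4
  exact Nat.le_of_mul_le_mul_left h4 (by positivity)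

theorem one_le_M (r n : ℕ) : 1 ≤ M r n := by
  have := M_mono r (Nat.zero_le n)
  exact this

theorem M_one (r : ℕ) (hr : 1 ≤ r) : M r 1 = 2 := by
  show 1 + (1 + r - 1).choose r = 2
  rw [Nat.add_sub_cancel_left, Nat.choose_self]

theorem M_two (r : ℕ) (hr : 1 ≤ r) : M r 2 = r + 3 := by
  show M r 1 + (M r 1 + r - 1).choose r = r + 3
  rw [M_one r hr]
  have : 2 + r - 1 = r + 1 := by omega
  rw [this, Nat.choose_succ_self_right]
  omega

theorem M_three (r : ℕ) (hr : 1 ≤ r) : r * 2 ≤ M r 3 := by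
  show r * 2 ≤ M r 2 + (M r 2 + r - 1).choose r
  have h := choose_ge r (M r 2) 1 hr (one_le_M r 2) (by rw [M_two r hr]; omega)
  rw [one_pow, mul_one] at h
  have h2 := M_two r hr
  omega

theorem M_ge (r : ℕ) (hr : 1 ≤ r) (n : ℕ) : r * 2 ^ (r ^ n) ≤ M r (n + 3) := by
  induction n with
  | zero => simpa using M_three r hr
  | succ n ih =>
    have h := choose_ge r (M r (n + 3)) (2 ^ (r ^ n)) hr (one_le_M r _) ih
    rw [← pow_mul, ← pow_succ] at h
    have h2 : M r (n + 1 + 3) = M r (n + 3) + (M r (n + 3) + r - 1).choose r := rfl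
    rw [h2]
    omega

theorem M_linear (n : ℕ) : M 1 n = 2 ^ n := by
  induction n with
  | zero => rfl
  | succ n ih =>
    show M 1 n + (M 1 n + 1 - 1).choose 1 = _
    rw [ih, Nat.add_sub_cancel, Nat.choose_one_right]
    ring

theorem exp_wins (C a : ℝ) : ∃ n : ℕ, 4 ≤ n ∧ C * (n : ℝ) ^ a < 2 ^ (n - 4) := by
  obtain ⟨k, hk⟩ := exists_nat_ge a
  have h2 := isLittleO_pow_const_const_pow_of_one_lt (R := ℝ) k (r := 2) (by norm_num)
  have h3 : (0 : ℝ) < 1 / (32 * (|C| + 1)) := by positivity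
  have h4 := (h2.bound h3).and (Filter.eventually_ge_atTop 4)
  obtain ⟨n, h5, h6⟩ := h4.exists
  refine ⟨n, h6, ?_⟩
  rw [Real.norm_of_nonneg (by positivity), Real.norm_of_nonneg (by positivity)] at h5
  have hn1 : (1 : ℝ) ≤ n := by exact_mod_cast (by omega : 1 ≤ n)
  have h7 : (n : ℝ) ^ a ≤ (n : ℝ) ^ k := by
    rw [← Real.rpow_natCast]
    exact Real.rpow_le_rpow_of_exponent_le hn1 hk
  have h8 : (0 : ℝ) ≤ (n : ℝ) ^ a := by positivity
  have h9 : (2 : ℝ) ^ n = 16 * 2 ^ (n - 4) := by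
    have : n = (n - 4) + 4 := by omega
    conv_lhs => rw [this, pow_add]
    ring
  have h10 : C * (n : ℝ) ^ a ≤ (|C| + 1) * (n : ℝ) ^ k := by
    calc C * (n : ℝ) ^ a ≤ (|C| + 1) * (n : ℝ) ^ a := by
          apply mul_le_mul_of_nonneg_right _ h8
          linarith [le_abs_self C]
      _ ≤ (|C| + 1) * (n : ℝ) ^ k := by
          apply mul_le_mul_of_nonneg_left h7
          positivity
  have h11 : (|C| + 1) * (n : ℝ) ^ k ≤ (|C| + 1) * (1 / (32 * (|C| + 1)) * 2 ^ n) :=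
    mul_le_mul_of_nonneg_left h5 (by positivity)
  have h12 : (|C| + 1) * (1 / (32 * (|C| + 1)) * 2 ^ n) = (2 : ℝ) ^ (n - 4) / 2 := by
    rw [h9]
    have : |C| + 1 ≠ 0 := by positivity
    field_simp
    norm_num
  have h13 : (0 : ℝ) < 2 ^ (n - 4) := by positivity
  linarith

end Pool.Agent.Y860.SSub
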